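import Pool.Agent.Lib.MP_eca5e6_al.C2.MainFin

set_option autoImplicit false

namespace Pool.Agent.Results.MP_eca5e6_al.ClassTwo

open Pool.Agent.Lib.MP_eca5e6_al
open scoped commutatorElement

/-- Let `G` be a group generated by a finite set `S`, `T` a finite normal subgroup of `G` and `N` a
normal subgroup of `G` containing `T`. Suppose that `G / N` is nilpotent of class at most 2 and not
virtually abelian and that, modulo `T`, `⁅s, t⁆` commutes with `s` and `t` for all `s, t` in `S`.
(For `N = T`: `G` is any group that has a finite normal subgroup `T` such that `G / T` is nilpotent of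
class 2 and not virtually abelian, and `S` is any finite generating set.) Then the horofunction
boundary of `G` for the word metric of `S` (the pointwise closure of the functions
`z ↦ d(z,x) - d(1,x)`, minus those functions themselves) is uncountable. -/
theorem result :
    ∀ (G : Type) [Group G] (S : Finset G),
      Subgroup.closure (S : Set G) = ⊤ →
      ∀ T : Subgroup G, T.Normal → Finite T →
      (∀ s ∈ S, ∀ t ∈ S, ⁅⁅s, t⁆, s⁆ ∈ T ∧ ⁅⁅s, t⁆, t⁆ ∈ T) →
      ∀ N : Subgroup G, N.Normal → T ≤ N → (∀ x y z : G, ⁅⁅x, y⁆, z⁆ ∈ N) →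
      (¬ ∃ H : Subgroup G, H.FiniteIndex ∧ ∀ a ∈ H, ∀ b ∈ H, ⁅a, b⁆ ∈ N) →
      ∀ Γ : SimpleGraph G, Γ = SimpleGraph.fromRel (fun g h : G => g⁻¹ * h ∈ S) →
      ∀ A : Set (G → ℤ),
        A = Set.range (fun x : G => fun z : G => ((Γ.dist z x : ℕ) : ℤ) - ((Γ.dist 1 x : ℕ) : ℤ)) →
        ¬ (closure A \ A).Countable := by
  intro G _ S hS T hT hTf hpair N hN hTN hN2 hva Γ hΓ A hA
  subst hA
  exact C2.classTwo_fin hS hΓ T hT hTf hpair N hN hTN hN2 hva

end Pool.Agent.Results.MP_eca5e6_al.ClassTwo
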