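import Pool.Agent.Lib.MP_eca5e6_al.Cayley

set_option autoImplicit false

namespace Pool.Agent.Results.MP_eca5e6_al.ExponentialGrowth

open Pool.Agent.Lib.MP_eca5e6_al

/-- For every finitely generated group of exponential growth and every finite generating set,
the pointwise closure of the functions `z ↦ d(z,x) - d(1,x)` for the word metric, minus those
functions themselves (the horofunction boundary), is uncountable. -/
theorem result :
    ∀ (G : Type) [Group G] (S : Finset G),
      Subgroup.closure (S : Set G) = ⊤ →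
      ∀ Γ : SimpleGraph G, Γ = SimpleGraph.fromRel (fun g h : G => g⁻¹ * h ∈ S) →
      (∃ c : ℝ, 1 < c ∧ ∀ n : ℕ, c ^ n ≤ ({x : G | Γ.dist 1 x ≤ n}.ncard : ℝ)) →
      ∀ A : Set (G → ℤ),
        A = Set.range (fun x : G => fun z : G => ((Γ.dist z x : ℕ) : ℤ) - ((Γ.dist 1 x : ℕ) : ℤ)) →
        ¬ (closure A \ A).Countable := by
  intro G _ S hS Γ hΓ hexp A hA
  subst hA
  exact main (cay_geoDist hS hΓ) 1 (fun n => {y | Γ.dist 1 y = n}.ncard)
    (fun x n => cay_sphere hS hΓ x n) hexp

end Pool.Agent.Results.MP_eca5e6_al.ExponentialGrowth
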