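import Pool.Agent.Lib.MP_eca5e6_al.Dyn2

set_option autoImplicit false

namespace Pool.Agent.Results.MP_eca5e6_al.InfiniteQuotients

open Pool.Agent.Lib.MP_eca5e6_al

/-- Let a finitely generated group `G` have, for some finite generating set, a countable
horofunction boundary (the pointwise closure of the functions `z ↦ d(z,x) - d(1,x)` for the word
metric, minus those functions themselves). Let `G₀` be a subgroup of finite index, `T` a finite set
that meets all cosets `G₀ t`, and `N` a subgroup of `G₀`, normalized by `G₀`, of infinite index.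
Then there are `t ∈ T`, a subgroup `H` of finite index with `N ≤ H ≤ G₀` and a function `q`, additive
on `H` and zero on `N`, such that `|q x|` is at most the word length of `t⁻¹ x t` for all `x ∈ H`,
with equality for some `w ≠ 1`. In particular every infinite quotient of a finite-index subgroup of
`G` has a finite-index subgroup that maps onto `ℤ`. -/
theorem result :
    ∀ (G : Type) [Group G] (S : Finset G),
      Subgroup.closure (S : Set G) = ⊤ →
      ∀ Γ : SimpleGraph G, Γ = SimpleGraph.fromRel (fun g h : G => g⁻¹ * h ∈ S) →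
      ∀ A : Set (G → ℤ),
        A = Set.range (fun x : G => fun z : G => ((Γ.dist z x : ℕ) : ℤ) - ((Γ.dist 1 x : ℕ) : ℤ)) →
        (closure A \ A).Countable →
        ∀ (G₀ : Subgroup G) (T : Finset G), (∀ z : G, ∃ t ∈ T, z * t⁻¹ ∈ G₀) →
          ∀ N : Subgroup G, N ≤ G₀ → (∀ g ∈ G₀, ∀ n ∈ N, g * n * g⁻¹ ∈ N) → Infinite (G ⧸ N) →
            ∃ t ∈ T, ∃ H : Subgroup G, N ≤ H ∧ H ≤ G₀ ∧ H.FiniteIndex ∧ ∃ q : G → ℤ,
              (∀ x ∈ H, ∀ y ∈ H, q (x * y) = q x + q y) ∧ (∀ x ∈ N, q x = 0) ∧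
              (∀ x ∈ H, |q x| ≤ Γ.dist 1 (t⁻¹ * x * t)) ∧
              ∃ w ∈ H, w ≠ 1 ∧ q w = Γ.dist 1 (t⁻¹ * w * t) := by
  intro G _ S hS Γ hΓ A hA hc G₀ T hT N hN0 hNn hNi
  subst hA
  have hfin : Finite (G ⧸ G₀) := by
    apply Finite.of_surjective (fun t : T => (QuotientGroup.mk t.1⁻¹ : G ⧸ G₀))
    intro q
    obtain ⟨g, rfl⟩ := QuotientGroup.mk_surjective q
    obtain ⟨t, ht, htg⟩ := hT g⁻¹
    refine ⟨⟨t, ht⟩, ?_⟩
    rw [QuotientGroup.eq]
    have h1 := G₀.inv_mem htg
    simpa using h1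
  have : G₀.FiniteIndex := Subgroup.finiteIndex_of_finite_quotient
  exact quotient_tight (cay_geoDist hS hΓ) (cay_dist_mul hS hΓ) hc G₀ T hT N hN0 hNn

end Pool.Agent.Results.MP_eca5e6_al.InfiniteQuotients
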