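import Pool.Agent.Lib.MP_eca5e6_al.Sp.Final

set_option autoImplicit false

namespace Pool.Agent.Results.MP_eca5e6_al.TwoLetterFaces

open Pool.Agent.Lib.MP_eca5e6_al
open scoped commutatorElement

/-- Let `S` be a finite generating set of the group `G`; the letters are the elements of `S` and
their inverses. Let `M` be a normal subgroup of `G` such that `G / M` is nilpotent and torsion-free,
`μ` a homomorphism from `G` to the reals with `μ ≤ 1` on all letters and `a`, `b` letters with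
`μ a = μ b = 1`, and suppose that `μ s = 1` only for letters `s` in `aM` or `bM`. Suppose moreover
that `⁅a, b⁆` does not commute with both `a` and `b` modulo `M`, or that `M` is finite and no power
`⁅a, b⁆ ^ n`, `n > 0`, lies in the third term `γ₃(G)` of the lower central series
(`lowerCentralSeries 2`; Mathlib counts from 0). Then the horofunction boundary of `G` for the word
metric of `S` (the pointwise closure of the functions `z ↦ d(z,x) - d(1,x)`, minus those functions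
themselves) is uncountable. -/
theorem result :
    ∀ (G : Type) [Group G] (S : Finset G),
      Subgroup.closure (S : Set G) = ⊤ →
      ∀ M : Subgroup G, M.Normal → (∃ N : ℕ, (⊤ : Subgroup G).lowerCentralSeries N ≤ M) →
      (∀ g : G, ∀ n : ℕ, 0 < n → g ^ n ∈ M → g ∈ M) →
      ∀ μ : G → ℝ, (∀ g h, μ (g * h) = μ g + μ h) → (∀ s, s ∈ S ∨ s⁻¹ ∈ S → μ s ≤ 1) →
      ∀ a b : G, (a ∈ S ∨ a⁻¹ ∈ S) → (b ∈ S ∨ b⁻¹ ∈ S) → μ a = 1 → μ b = 1 →
      (∀ s, s ∈ S ∨ s⁻¹ ∈ S → μ s = 1 → a⁻¹ * s ∈ M ∨ b⁻¹ * s ∈ M) →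
      (¬ (⁅⁅a, b⁆, a⁆ ∈ M ∧ ⁅⁅a, b⁆, b⁆ ∈ M) ∨
        (Finite M ∧ ∀ n : ℕ, 0 < n → ⁅a, b⁆ ^ n ∉ (⊤ : Subgroup G).lowerCentralSeries 2)) →
      ∀ Γ : SimpleGraph G, Γ = SimpleGraph.fromRel (fun g h : G => g⁻¹ * h ∈ S) →
      ∀ A : Set (G → ℤ),
        A = Set.range (fun x : G => fun z : G => ((Γ.dist z x : ℕ) : ℤ) - ((Γ.dist 1 x : ℕ) : ℤ)) →
        ¬ (closure A \ A).Countable := by
  intro G _ S hS M hM hnil htf μ hμ hle a b ha hb hμa hμb htight hor Γ hΓ A hA
  subst hA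
  exact Sp.two_letters hS hΓ M hM hnil htf hμ hle ha hb hμa hμb htight hor

end Pool.Agent.Results.MP_eca5e6_al.TwoLetterFaces
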